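import Pool.Agent.helper66.LIN.Spec

set_option autoImplicit false

namespace LSH.Lin

theorem NCN_mem (P : Finset Pt) (L : Multiset (Pt × BT)) (σ : ℝ → ℝ) (u : Pt) (up : Bool)
    (c : ℝ) (p : Pt) : p ∈ avs P L σ u up c ↔ p ∈ P ∧ σ p.2 < p.1 ∧ p.1 ≤ c ∧ Vis L u p.2 ∧
    ((up = true ∧ u.2 < p.2) ∨ (up = false ∧ p.2 < u.2)) := by
  classical
  unfold avs
  rw [Finset.mem_filter]

theorem NCN (hNSG : NSG_stmt) (hVLM : VLM_stmt) (hGTF : GTF_stmt) : NCN_stmt := by
  classical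
  intro P L₀ σ X u t up x₁ q G hS i hi d
  obtain ⟨-, n2, n3, -⟩ := hNSG P L₀ σ X u t up x₁ q G hS
  obtain ⟨v1, v2, v3, -, -⟩ := hVLM P L₀ σ X u t up x₁ q G hS
  have key : ∀ p ∈ avs P (L₀ + G.pend) (nsig ((u, t) ::ₘ L₀) σ u x₁ G.pend) i.1 d x₁,
      ¬ Vis ((u, t) ::ₘ L₀) u p.2 := by
    intro p hp hv
    rw [NCN_mem] at hp
    obtain ⟨-, h1, h2, h3, h4⟩ := hp
    have hne : ∀ j ∈ G.pend, j.1.2 ≠ p.2 := by
      intro j hj he
      by_cases hji : j.1 = i.1
      · rw [hji] at he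
        rcases h4 with h4 | h4
        · exact absurd he (ne_of_lt h4.2)
        · exact absurd he (ne_of_gt h4.2)
      · refine h3 j (Multiset.mem_add.2 (Or.inr hj)) hji ?_
        rw [he]
        exact Set.right_mem_uIcc
    have h5 := n2 p.2 hv hne
    rw [h5] at h1
    linarith
  rcases Multiset.mem_add.1 hi with h0 | h0
  · have hsub : avs P (L₀ + G.pend) (nsig ((u, t) ::ₘ L₀) σ u x₁ G.pend) i.1 d x₁ ⊆
        (avs P ((u, t) ::ₘ L₀) σ i.1 d x₁).erase q := by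
      intro p hp
      have hk := key p hp
      rw [NCN_mem] at hp
      obtain ⟨hP, h1, h2, h3, h4⟩ := hp
      rw [Finset.mem_erase, NCN_mem]
      refine ⟨?_, hP, ?_, h2, v2 i h0 p.2 h3 hk, h4⟩
      · intro he
        apply hk
        rw [he]
        have hq := hS.ch.hq
        rw [NCN_mem] at hq
        exact hq.2.2.2.1
      · rw [n3 p.2 hk] at h1
        exact h1
    exact lt_of_le_of_lt (Finset.card_le_card hsub)
      (hS.ch.small i (Multiset.mem_cons_of_mem h0) d)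
  · have he : avs P (L₀ + G.pend) (nsig ((u, t) ::ₘ L₀) σ u x₁ G.pend) i.1 d x₁ = ∅ := by
      rw [Finset.eq_empty_iff_forall_notMem]
      intro p hp
      have hk := key p hp
      rw [NCN_mem] at hp
      exact hk (v3 i h0 p.2 hp.2.2.2.1)
    rw [he, Finset.card_empty]
    have h8 := hGTF.2.2.2.2.2.2.2 i.2
    omega

end LSH.Lin
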